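import Pool.Agent.W2helper63.LL.BJ
import Pool.Agent.W2helper7.LL.KLA

/-!
# Project LL, piece ADM: a finite sum of representations generated by Steinberg vectors is
admissible
-/

set_option autoImplicit false

noncomputable section

namespace Pool.Agent.W2helper76.LL.Adm

open Pool.Agent.W2helper63.LL Pool.Agent.W2helper7.LL WithZero
open scoped Classical

/-! ## Representatives -/

section alg

variable {L : Type} [Field L]

/-- the sums of distinct elements of `p^m, …, p^(m+k-1)` -/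
def X (p : Lˣ) (m : ℤ) : ℕ → Multiset L
  | 0 => {0}
  | k + 1 => X p m k + (X p m k).map (· + (p : L) ^ (m + k))

theorem card_X (p : Lˣ) (m : ℤ) (k : ℕ) : Multiset.card (X p m k) = 2 ^ k := by
  induction k with
  | zero => simp [X]
  | succ k ih => simp [X, ih, pow_succ, mul_two]

theorem sum_X_succ {V : Type} [AddCommGroup V] (p : Lˣ) (m : ℤ) (k : ℕ) (f : L → V) :
    ((X p m (k + 1)).map f).sum =
      ((X p m k).map fun x => f x + f (x + (p : L) ^ (m + k))).sum := by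
  rw [Multiset.sum_map_add]
  show Multiset.sum (Multiset.map f (X p m k + (X p m k).map (· + (p : L) ^ (m + k)))) = _
  rw [Multiset.map_add, Multiset.sum_add, Multiset.map_map]
  rfl

theorem nl_add (x y : L) : nl x * nl y = nl (x + y) := by
  ext i j
  fin_cases i <;> fin_cases j <;>
    simp [nl, Matrix.mul_apply, Fin.sum_univ_two]

theorem sw_nu (x : L) : nl x * sw = sw * nu x := by
  ext i j
  fin_cases i <;> fin_cases j <;>
    simp [nl, nu, sw, bor, Matrix.mul_apply, Fin.sum_univ_two]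

theorem nu_bor (x a : L) (q : Lˣ) : nu x * bor q a 1 = bor q (a + x) 1 := by
  ext i j
  fin_cases i <;> fin_cases j <;>
    simp [nu, bor, Matrix.mul_apply, Fin.sum_univ_two]

theorem nu_zero : (nu 0 : GL (Fin 2) L) = 1 := by
  ext i j
  fin_cases i <;> fin_cases j <;> simp [nu, bor]

theorem nl_zero : (nl 0 : GL (Fin 2) L) = 1 := by
  ext i j
  fin_cases i <;> fin_cases j <;> simp [nl]

/-- the conjugate of `nl c` by `(q a; 0 1)` -/
def cm (q : Lˣ) (a c : L) : GL (Fin 2) L where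
  val := !![1 - a * c, -(((q⁻¹ : Lˣ) : L) * (a * a * c)); c * q, 1 + c * a]
  inv := !![1 + c * a, ((q⁻¹ : Lˣ) : L) * (a * a * c); -(c * q), 1 - a * c]
  val_inv := by
    have h : (q : L) ≠ 0 := q.ne_zero
    ext i j
    fin_cases i <;> fin_cases j <;> simp [Matrix.mul_apply, Fin.sum_univ_two] <;> field_simp <;> ring
  inv_val := by
    have h : (q : L) ≠ 0 := q.ne_zero
    ext i j
    fin_cases i <;> fin_cases j <;> simp [Matrix.mul_apply, Fin.sum_univ_two] <;> field_simp <;> ring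

theorem nl_bor (q : Lˣ) (a c : L) : nl c * bor q a 1 = bor q a 1 * cm q a c := by
  have h : (q : L) ≠ 0 := q.ne_zero
  apply Units.ext
  show (!![1, 0; c, 1] : Matrix (Fin 2) (Fin 2) L) * !![(q : L), a; 0, ((1 : Lˣ) : L)] =
    !![(q : L), a; 0, ((1 : Lˣ) : L)] *
      !![1 - a * c, -(((q⁻¹ : Lˣ) : L) * (a * a * c)); c * q, 1 + c * a]
  ext i j
  fin_cases i <;> fin_cases j <;> simp [Matrix.mul_apply, Fin.sum_univ_two] <;> field_simp <;> ring

end alg

section val

variable {L : Type} [Field L] [Valued L (WithZero (Multiplicative ℤ))]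

theorem val_zpow {p : Lˣ} (hp : Valued.v (p : L) = exp (-1 : ℤ)) (n : ℤ) :
    Valued.v ((p : L) ^ n) = exp (-n) := by
  rw [← Units.val_zpow_eq_zpow_val, v_zpow hp]

theorem val_X {p : Lˣ} (hp : Valued.v (p : L) = exp (-1 : ℤ)) (m : ℤ) (k : ℕ) :
    ∀ x ∈ X p m k, Valued.v x ≤ exp (-m) := by
  induction k with
  | zero =>
    intro x hx
    have : x = 0 := by simpa [X] using hx
    rw [this]
    simp
  | succ k ih =>
    intro x hx
    rcases Multiset.mem_add.1 (show x ∈ X p m k + (X p m k).map (· + (p : L) ^ (m + k)) from hx)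
      with h | h
    · exact ih x h
    · obtain ⟨y, hy, rfl⟩ := Multiset.mem_map.1 h
      refine (Valuation.map_add _ _ _).trans (max_le (ih y hy) ?_)
      rw [val_zpow hp, exp_le_exp]
      omega

theorem lt_exp {x : WithZero (Multiplicative ℤ)} {n : ℤ} (h : x < exp n) : x ≤ exp (n - 1) := by
  by_cases h0 : x = 0
  · rw [h0]; exact zero_le
  · rw [← exp_log h0] at h ⊢
    rw [exp_lt_exp] at h
    rw [exp_le_exp]
    omega

/-- every integral element is congruent to a representative -/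
theorem exists_rep {p : Lˣ} (hp : Res2 L p) (a : L) (ha : Valued.v a ≤ 1) (m : ℕ) :
    ∃ r ∈ X p 0 m, Valued.v (a - r) ≤ exp (-(m : ℤ)) := by
  induction m with
  | zero => exact ⟨0, by simp [X], by simpa using ha⟩
  | succ m ih =>
    obtain ⟨r, hr, h⟩ := ih
    by_cases h1 : Valued.v (a - r) < exp (-(m : ℤ))
    · refine ⟨r, Multiset.mem_add.2 (Or.inl hr), ?_⟩
      have := lt_exp h1
      have e : (-(m : ℤ) - 1) = -((m + 1 : ℕ) : ℤ) := by push_cast; ring
      rwa [e] at this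
    · have h2 : Valued.v (a - r) = exp (-(m : ℤ)) := le_antisymm h (not_lt.1 h1)
      refine ⟨r + (p : L) ^ ((0 : ℤ) + m), Multiset.mem_add.2 (Or.inr
        (Multiset.mem_map.2 ⟨r, hr, rfl⟩)), ?_⟩
      rw [zero_add]
      have h3 : Valued.v ((a - r) * (p : L) ^ (-(m : ℤ))) = 1 := by
        rw [map_mul, h2, val_zpow hp.val, ← exp_add, neg_neg, neg_add_cancel, exp_zero]
      have h4 := hp.two _ 1 h3 (map_one _)
      have hp0 : (p : L) ≠ 0 := p.ne_zero
      have h5 : a - (r + (p : L) ^ (m : ℤ)) =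
          ((a - r) * (p : L) ^ (-(m : ℤ)) + 1) * (p : L) ^ (m : ℤ) := by
        have e1 : (p : L) ^ (-(m : ℤ)) * (p : L) ^ (m : ℤ) = 1 := by
          rw [← zpow_add₀ hp0, neg_add_cancel, zpow_zero]
        have e2 : (2 : L) = 0 := hp.char
        linear_combination (-(a - r)) * e1 - (p : L) ^ (m : ℤ) * e2
      rw [h5, map_mul, val_zpow hp.val]
      have h6 : Valued.v ((a - r) * (p : L) ^ (-(m : ℤ)) + 1) * exp (-(m : ℤ)) <
          1 * exp (-(m : ℤ)) := by
        apply mul_lt_mul_of_pos_right h4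
        exact exp_pos
      rw [one_mul] at h6
      have := lt_exp h6
      have e : (-(m : ℤ) - 1) = -((m + 1 : ℕ) : ℤ) := by push_cast; ring
      rwa [e] at this

/-! ## The congruence subgroups -/

theorem continuous_nu : Continuous (nu : L → GL (Fin 2) L) := by
  rw [Units.continuous_iff]
  constructor
  · refine continuous_matrix fun i j => ?_
    fin_cases i <;> fin_cases j <;> simp [nu, bor] <;> fun_prop
  · have e : (fun x : L => ((nu x)⁻¹ : GL (Fin 2) L).1) = fun x => !![1, -x; 0, 1] := by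
      ext x i j
      show (!![((1⁻¹ : Lˣ) : L), -((1⁻¹ : Lˣ) : L) * x * ((1⁻¹ : Lˣ) : L); 0,
        ((1⁻¹ : Lˣ) : L)]) i j = _
      simp
    show Continuous (fun x : L => ((nu x)⁻¹ : GL (Fin 2) L).1)
    rw [e]
    refine continuous_matrix fun i j => ?_
    fin_cases i <;> fin_cases j <;> simp <;> fun_prop

theorem continuous_nl : Continuous (nl : L → GL (Fin 2) L) := by
  rw [Units.continuous_iff]
  constructor
  · refine continuous_matrix fun i j => ?_
    fin_cases i <;> fin_cases j <;> simp [nl] <;> fun_prop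
  · have e : (fun x : L => ((nl x)⁻¹ : GL (Fin 2) L).1) = fun x => !![1, 0; -x, 1] := rfl
    show Continuous (fun x : L => ((nl x)⁻¹ : GL (Fin 2) L).1)
    rw [e]
    refine continuous_matrix fun i j => ?_
    fin_cases i <;> fin_cases j <;> simp <;> fun_prop

theorem exists_ball (f : L → GL (Fin 2) L) (hf : Continuous f) (h0 : f 0 = 1)
    (H : Subgroup (GL (Fin 2) L)) (hH : IsOpen (H : Set (GL (Fin 2) L))) :
    ∃ m : ℕ, ∀ n : ℕ, m ≤ n → ∀ x, Valued.v x ≤ exp (-(n : ℤ)) → f x ∈ H := by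
  have h1 : f ⁻¹' (H : Set (GL (Fin 2) L)) ∈ nhds (0 : L) := by
    apply (hH.preimage hf).mem_nhds
    show f 0 ∈ H
    rw [h0]
    exact H.one_mem
  obtain ⟨γ, hγ⟩ := Valued.mem_nhds_zero.1 h1
  have h2 : MonoidWithZeroHom.ValueGroup₀.embedding γ.1 ≠
      (0 : WithZero (Multiplicative ℤ)) := by
    intro h
    exact γ.ne_zero ((map_eq_zero _).1 h)
  refine ⟨(1 - log (MonoidWithZeroHom.ValueGroup₀.embedding γ.1)).toNat, fun n hn x hx => ?_⟩
  apply hγ
  show Valued.v.restrict x < γ.1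
  rw [Valuation.restrict_lt_iff_lt_embedding]
  refine lt_of_le_of_lt hx ?_
  rw [← exp_log h2, exp_lt_exp]
  omega

/-! ## Averages -/

variable {V : Type} [AddCommGroup V] [Module ℂ V] {ρ : Representation ℂ (GL (Fin 2) L) V}
  {p : Lˣ} {u : V}

theorem nu_U (a x : L) (n : ℤ) : ρ (nu x) (U ρ p u a n) = U ρ p u (a + x) n := by
  rw [U_eq, U_eq, ← nu_bor, map_mul, Module.End.mul_apply]

omit [Valued L (WithZero (Multiplicative ℤ))] in
theorem nl_sw (x : L) (y : V) : ρ (nl x) (ρ sw y) = ρ sw (ρ (nu x) y) := by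
  rw [← Module.End.mul_apply, ← map_mul, sw_nu, map_mul, Module.End.mul_apply]

/-- averages of translates -/
theorem av_U (hp : Res2 L p) (hu : StVec ρ p u) (a : L) (m : ℤ) (i k : ℕ) :
    ((X p m (i + k)).map fun x => ρ (nu x) (U ρ p u a (m + i))).sum =
      (2 ^ k : ℂ) • U ρ p u a m := by
  induction k with
  | zero =>
    rw [pow_zero, one_smul, add_zero]
    induction i with
    | zero =>
      simp [X, nu_zero]
    | succ i ih =>
      rw [sum_X_succ, ← ih]
      congr 1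
      refine Multiset.map_congr rfl fun x _ => ?_
      rw [nu_U, nu_U, nu_U, kla2 hu (a + x) (m + i)]
      have e : m + ((i + 1 : ℕ) : ℤ) = m + i + 1 := by push_cast; ring
      rw [e, add_assoc a x]
  | succ k ih =>
    rw [← add_assoc, sum_X_succ, pow_succ, mul_comm, mul_smul, ← ih, two_smul,
      ← Multiset.sum_map_add]
    congr 1
    refine Multiset.map_congr rfl fun x _ => ?_
    congr 1
    rw [nu_U, nu_U]
    apply kla1 hp hu
    have e : a + (x + (p : L) ^ (m + ((i + k : ℕ) : ℤ))) - (a + x) =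
      (p : L) ^ (m + ((i + k : ℕ) : ℤ)) := by ring
    rw [e, val_zpow hp.val, exp_le_exp]
    push_cast
    omega

/-- averaging operators -/
def Av (ρ : Representation ℂ (GL (Fin 2) L) V) (f : L → GL (Fin 2) L) (S : Multiset L) :
    Module.End ℂ V := (S.map fun x => ρ (f x)).sum

omit [Valued L (WithZero (Multiplicative ℤ))] in
theorem Av_apply (f : L → GL (Fin 2) L) (S : Multiset L) (y : V) :
    Av ρ f S y = (S.map fun x => ρ (f x) y).sum := by
  unfold Av
  induction S using Multiset.induction_on with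
  | empty => simp
  | cons a S ih => simp [ih]

theorem Av_fix (f : L → GL (Fin 2) L) (S : Multiset L) (y : V)
    (h : ∀ x ∈ S, ρ (f x) y = y) : Av ρ f S y = (Multiset.card S : ℂ) • y := by
  rw [Av_apply]
  have : (S.map fun x => ρ (f x) y) = S.map fun _ => y := Multiset.map_congr rfl h
  rw [this, Multiset.map_const', Multiset.sum_replicate]
  norm_cast

/-- balls away from the origin -/
theorem sw_U (hp : Res2 L p) (hu : StVec ρ p u) (b : Lˣ) (j k : ℤ)
    (hb : Valued.v (b : L) = exp (-k)) (hj : k < j) :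
    ρ sw (U ρ p u (b : L) j) = U ρ p u ((b : L)⁻¹) (j - 2 * k) := by
  obtain ⟨ε, hε⟩ : ∃ ε : Lˣ, ε = -(p ^ (2 * k) * (b ^ 2)⁻¹) := ⟨_, rfl⟩
  have hvε : Valued.v (ε : L) = 1 := by
    rw [hε, Units.val_neg, Valuation.map_neg, Units.val_mul, map_mul, v_zpow hp.val,
      Units.val_inv_eq_inv_val, Units.val_pow_eq_pow_val, map_inv₀, map_pow, hb,
      ← exp_nsmul, ← exp_neg, ← exp_add]
    rw [← exp_zero]
    congr 1
    simp
  have hb0 : (b : L) ≠ 0 := b.ne_zero
  have hp0 : (p : L) ≠ 0 := p.ne_zero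
  have hg : sw * bor (p ^ j) (b : L) 1 =
      bor (p ^ (j - 2 * k)) ((b : L)⁻¹) 1 * bor ε 0 1 * (bor b 0 b * nl ((p : L) ^ j / b)) := by
    have h1 : bor (p ^ (j - 2 * k)) ((b : L)⁻¹) 1 * bor ε 0 1 * bor b 0 b =
        bor (-(p ^ j * b⁻¹)) 1 b := by
      rw [bor_mul, bor_mul]
      congr 1
      · rw [hε]
        rw [_root_.zpow_sub]
        have : p ^ j * (p ^ (2 * k))⁻¹ * -(p ^ (2 * k) * (b ^ 2)⁻¹) * b =
          -(p ^ j * ((p ^ (2 * k))⁻¹ * p ^ (2 * k)) * ((b ^ 2)⁻¹ * b)) := by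
          simp only [mul_neg, neg_mul, mul_assoc]
        rw [this, inv_mul_cancel, mul_one, pow_two, mul_inv_rev, mul_assoc (b⁻¹), inv_mul_cancel,
          mul_one]
      · simp
      · simp
    rw [← mul_assoc, h1]
    apply Units.ext
    show (!![0, 1; 1, 0] : Matrix (Fin 2) (Fin 2) L) * !![((p ^ j : Lˣ) : L), (b : L);
      0, ((1 : Lˣ) : L)] = !![((-(p ^ j * b⁻¹) : Lˣ) : L), 1; 0, (b : L)] *
        !![1, 0; (p : L) ^ j / b, 1]
    ext i j
    fin_cases i <;> fin_cases j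
    · simp [Matrix.mul_apply, Fin.sum_univ_two]
      field_simp
      ring
    · simp [Matrix.mul_apply, Fin.sum_univ_two]
    · simp [Matrix.mul_apply, Fin.sum_univ_two]
      field_simp
    · simp [Matrix.mul_apply, Fin.sum_univ_two]
  have hc : Valued.v ((p : L) ^ j / b) < 1 := by
    rw [map_div₀, val_zpow hp.val, hb, ← exp_sub, ← exp_zero, exp_lt_exp]
    omega
  rw [U_eq, U_eq, ← Module.End.mul_apply, ← map_mul, hg]
  rw [map_mul, Module.End.mul_apply, map_mul _ (bor b 0 b), Module.End.mul_apply,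
    hu.iw _ (iw_nl hc), hu.cen, map_mul, Module.End.mul_apply,
    hu.iw _ (iw_bor hvε (by simp) (by simp))]

/-- integral balls are invariant -/
theorem nl_U (hp : Res2 L p) (hu : StVec ρ p u) (a c : L) (m : ℕ) (hm : 1 ≤ m)
    (ha : Valued.v a ≤ 1) (hc : Valued.v c ≤ exp (-(m : ℤ))) :
    ρ (nl c) (U ρ p u a m) = U ρ p u a m := by
  have hc1 : Valued.v c < 1 := lt_of_le_of_lt hc (by rw [← exp_zero, exp_lt_exp]; omega)
  have hq : Valued.v ((p ^ (m : ℤ) : Lˣ) : L) = exp (-(m : ℤ)) := v_zpow hp.val _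
  have hq1 : Valued.v ((p ^ (m : ℤ) : Lˣ) : L) ≤ 1 := by
    rw [hq, ← exp_zero, exp_le_exp]
    omega
  have hac : Valued.v (a * c) ≤ 1 := by
    rw [map_mul]
    exact mul_le_one' ha hc1.le
  have hca : Valued.v (c * a) ≤ 1 := by rwa [mul_comm]
  have h1 : Valued.v (1 - a * c) ≤ 1 :=
    (Valuation.map_sub _ _ _).trans (max_le (by simp) hac)
  have h2 : Valued.v (1 + c * a) ≤ 1 :=
    (Valuation.map_add _ _ _).trans (max_le (by simp) hca)
  have h3 : Valued.v ((((p ^ (m : ℤ))⁻¹ : Lˣ) : L) * (a * a * c)) ≤ 1 := by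
    rw [map_mul, Units.val_inv_eq_inv_val, map_inv₀, hq, ← exp_neg, neg_neg, map_mul]
    have h4 : Valued.v (a * a) * Valued.v c ≤ 1 * exp (-(m : ℤ)) := by
      refine mul_le_mul' ?_ hc
      rw [map_mul]
      exact mul_le_one' ha ha
    calc exp (m : ℤ) * (Valued.v (a * a) * Valued.v c) ≤ exp (m : ℤ) * (1 * exp (-(m : ℤ))) :=
          mul_le_mul_right h4 _
      _ = 1 := by rw [one_mul, ← exp_add, add_neg_cancel, exp_zero]
  have h5 : Valued.v (c * ((p ^ (m : ℤ) : Lˣ) : L)) < 1 := by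
    rw [map_mul]
    exact mul_lt_one_of_lt_of_le hc1 hq1
  have hI : Iw (cm (p ^ (m : ℤ)) a c) := by
    refine ⟨fun i j => ?_, h5⟩
    fin_cases i <;> fin_cases j
    · exact ⟨h1, h2⟩
    · refine ⟨?_, h3⟩
      show Valued.v (-((((p ^ (m : ℤ))⁻¹ : Lˣ) : L) * (a * a * c))) ≤ 1
      rw [Valuation.map_neg]
      exact h3
    · refine ⟨h5.le, ?_⟩
      show Valued.v (-(c * ((p ^ (m : ℤ) : Lˣ) : L))) ≤ 1
      rw [Valuation.map_neg]
      exact h5.le
    · exact ⟨h2, h1⟩
  rw [U_eq, ← Module.End.mul_apply, ← map_mul, nl_bor, map_mul, Module.End.mul_apply, hu.iw _ hI]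

/-- the averages of far away balls -/
theorem av_far (hp : Res2 L p) (hu : StVec ρ p u) (W : Submodule ℂ V) (m : ℕ) (hm : 1 ≤ m)
    (w1 : ∀ a, Valued.v a ≤ 1 → U ρ p u a m ∈ W)
    (w2 : ∀ a, Valued.v a ≤ 1 → ρ sw (U ρ p u a m) ∈ W) (a : L) (K : ℕ)
    (hK : (2 * log (Valued.v a)).toNat ≤ K) :
    Av ρ nl (X p m K) (U ρ p u a m) ∈ W := by
  by_cases ha : Valued.v a ≤ 1
  · rw [Av_fix nl (X p m K) _ fun x hx => nl_U hp hu a x m hm ha (val_X hp.val m K x hx)]
    exact W.smul_mem _ (w1 a ha)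
  · have ha0 : a ≠ 0 := by
      rintro rfl
      simp at ha
    have hv : Valued.v a ≠ 0 := (Valuation.ne_zero_iff _).2 ha0
    obtain ⟨k, hk⟩ : ∃ k : ℤ, k = log (Valued.v a) := ⟨_, rfl⟩
    have hak : Valued.v a = exp k := by rw [hk, exp_log hv]
    have hk1 : 1 ≤ k := by
      by_contra h
      apply ha
      rw [hak, ← exp_zero, exp_le_exp]
      omega
    rw [← hk] at hK
    obtain ⟨i, hi⟩ : ∃ i : ℕ, (i : ℤ) = 2 * k := ⟨(2 * k).toNat, Int.toNat_of_nonneg (by omega)⟩
    have hiK : i ≤ K := by omega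
    obtain ⟨d, rfl⟩ : ∃ d, K = i + d := ⟨K - i, by omega⟩
    have hb : Valued.v (((Units.mk0 a ha0)⁻¹ : Lˣ) : L) = exp (-k) := by
      rw [Units.val_inv_eq_inv_val, Units.val_mk0, map_inv₀, hak, exp_neg]
    have h1 := sw_U hp hu (Units.mk0 a ha0)⁻¹ ((m : ℤ) + i) k hb (by omega)
    have e : (m : ℤ) + i - 2 * k = m := by omega
    have e2 : ((((Units.mk0 a ha0)⁻¹ : Lˣ) : L))⁻¹ = a := by
      rw [Units.val_inv_eq_inv_val, Units.val_mk0, inv_inv]
    rw [e, e2] at h1
    rw [← h1, Av_apply]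
    have h2 : ((X p m (i + d)).map fun x => ρ (nl x) (ρ sw (U ρ p u
        (((Units.mk0 a ha0)⁻¹ : Lˣ) : L) ((m : ℤ) + i)))).sum =
        ρ sw (((X p m (i + d)).map fun x => ρ (nu x) (U ρ p u
        (((Units.mk0 a ha0)⁻¹ : Lˣ) : L) ((m : ℤ) + i))).sum) := by
      rw [map_multiset_sum, Multiset.map_map]
      congr 1
      refine Multiset.map_congr rfl fun x _ => ?_
      rw [nl_sw]
      rfl
    rw [h2, av_U hp hu, map_smul]
    refine W.smul_mem _ (w2 _ ?_)
    rw [hb, ← exp_zero, exp_le_exp]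
    omega

end val

theorem adm : S_ADM := by
  intro L _ _ p hp V _ _ ρ ι s u hu H hH
  obtain ⟨m1, hm1⟩ := exists_ball nu continuous_nu nu_zero H hH
  obtain ⟨m2, hm2⟩ := exists_ball nl continuous_nl nl_zero H hH
  obtain ⟨m, hm, h1, h2⟩ : ∃ m : ℕ, 1 ≤ m ∧ m1 ≤ m ∧ m2 ≤ m := ⟨m1 + m2 + 1, by omega⟩
  have hnu := hm1 m h1
  have hnl := hm2 m h2
  refine ⟨(s ×ˢ (X p 0 m).toFinset).image (fun q => U ρ p (u q.1) q.2 m) ∪
    (s ×ˢ (X p 0 m).toFinset).image (fun q => ρ sw (U ρ p (u q.1) q.2 m)), fun y hy hfix => ?_⟩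
  obtain ⟨W, hW⟩ : ∃ W : Submodule ℂ V, W = Submodule.span ℂ
    (((s ×ˢ (X p 0 m).toFinset).image (fun q => U ρ p (u q.1) q.2 m) ∪
    (s ×ˢ (X p 0 m).toFinset).image (fun q => ρ sw (U ρ p (u q.1) q.2 m)) : Finset V) : Set V) :=
    ⟨_, rfl⟩
  rw [← hW]
  have w1 : ∀ i ∈ s, ∀ a, Valued.v a ≤ 1 → U ρ p (u i) a m ∈ W := by
    intro i hi a ha
    obtain ⟨r, hr, har⟩ := exists_rep hp a ha m
    rw [kla1 hp (hu i hi) a r m har, hW]
    apply Submodule.subset_span
    rw [Finset.mem_coe, Finset.mem_union]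
    exact Or.inl (Finset.mem_image.2 ⟨(i, r), Finset.mem_product.2
      ⟨hi, Multiset.mem_toFinset.2 hr⟩, rfl⟩)
  have w2 : ∀ i ∈ s, ∀ a, Valued.v a ≤ 1 → ρ sw (U ρ p (u i) a m) ∈ W := by
    intro i hi a ha
    obtain ⟨r, hr, har⟩ := exists_rep hp a ha m
    rw [kla1 hp (hu i hi) a r m har, hW]
    apply Submodule.subset_span
    rw [Finset.mem_coe, Finset.mem_union]
    exact Or.inr (Finset.mem_image.2 ⟨(i, r), Finset.mem_product.2
      ⟨hi, Multiset.mem_toFinset.2 hr⟩, rfl⟩)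
  rw [Submodule.mem_iSup_finset_iff_exists_sum] at hy
  obtain ⟨μ, hμ⟩ := hy
  have A3 : ∀ i, ∃ N : ℕ, i ∈ s → ∀ n : ℕ, N ≤ n → ∃ c : L →₀ ℂ,
      (μ i : V) = c.sum fun a z => z • U ρ p (u i) a n := by
    intro i
    by_cases hi : i ∈ s
    · obtain ⟨N, hN⟩ := (kla L p hp V ρ (u i) (hu i hi)).2.2 (μ i) (μ i).2
      exact ⟨N, fun _ => hN⟩
    · exact ⟨0, fun h => absurd h hi⟩
  choose N hN using A3
  obtain ⟨k, hk⟩ : ∃ k : ℕ, k = s.sup N := ⟨_, rfl⟩
  have A4 : ∀ i, ∃ c : L →₀ ℂ, i ∈ s →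
      (μ i : V) = c.sum fun a z => z • U ρ p (u i) a (m + k : ℕ) := by
    intro i
    by_cases hi : i ∈ s
    · have : N i ≤ m + k := by
        have := Finset.le_sup (f := N) hi
        omega
      obtain ⟨c, hc⟩ := hN i hi (m + k) this
      exact ⟨c, fun _ => hc⟩
    · exact ⟨0, fun h => absurd h hi⟩
  choose c hc using A4
  -- the first average
  have B1 : ∀ i ∈ s, Av ρ nu (X p m k) (μ i) = (c i).sum fun a z => z • U ρ p (u i) a m := by
    intro i hi
    rw [hc i hi]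
    unfold Finsupp.sum
    rw [map_sum]
    refine Finset.sum_congr rfl fun a _ => ?_
    beta_reduce
    rw [map_smul, Av_apply]
    have := av_U hp (hu i hi) a (m : ℤ) k 0
    rw [add_zero, pow_zero, one_smul] at this
    rw [Nat.cast_add, this]
  have B2 : Av ρ nu (X p m k) y = (Multiset.card (X p m k) : ℂ) • y :=
    Av_fix nu _ y fun x hx => hfix _ (hnu x (val_X hp.val m k x hx))
  -- the second average
  obtain ⟨K, hK⟩ : ∃ K : ℕ, K = s.sup fun i => (c i).support.sup fun a =>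
    (2 * log (Valued.v a)).toNat := ⟨_, rfl⟩
  have B3 : ∀ i ∈ s, Av ρ nl (X p m K) (Av ρ nu (X p m k) (μ i)) ∈ W := by
    intro i hi
    rw [B1 i hi]
    unfold Finsupp.sum
    rw [map_sum]
    refine Submodule.sum_mem _ fun a ha => ?_
    rw [map_smul]
    refine W.smul_mem _ (av_far hp (hu i hi) W m hm (w1 i hi) (w2 i hi) a K ?_)
    have t1 := Finset.le_sup (f := fun a => (2 * log (Valued.v a)).toNat) ha
    have t2 := Finset.le_sup (f := fun i => (c i).support.sup fun a =>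
      (2 * log (Valued.v a)).toNat) hi
    rw [hK]
    exact t1.trans t2
  have B4 : Av ρ nl (X p m K) (Av ρ nu (X p m k) y) ∈ W := by
    rw [← hμ, map_sum, map_sum]
    exact Submodule.sum_mem _ B3
  have B5 : Av ρ nl (X p m K) y = (Multiset.card (X p m K) : ℂ) • y :=
    Av_fix nl _ y fun x hx => hfix _ (hnl x (val_X hp.val m K x hx))
  rw [B2, map_smul, B5, smul_smul] at B4
  refine (Submodule.smul_mem_iff W ?_).1 B4
  rw [card_X, card_X]
  have h2 : ∀ n : ℕ, ((2 ^ n : ℕ) : ℂ) ≠ 0 := fun n => Nat.cast_ne_zero.2 (by positivity)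
  exact mul_ne_zero (h2 _) (h2 _)

end Pool.Agent.W2helper76.LL.Adm
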