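import Pool.Agent.W2helper63.LL.Stm

/-!
# Project LL, pieces GEN1 and GEN2
-/

set_option autoImplicit false

noncomputable section

namespace Pool.Agent.W2helper76.LL

open Pool.Agent.W2helper63.LL

theorem gen1 : S_GEN1 := by
  intro G _ _ _ V _ _ ρ u hu y hy
  obtain ⟨H, hH, hHu⟩ := hu
  refine Submodule.span_induction
    (p := fun y _ => ∃ H : Subgroup G, IsOpen (H : Set G) ∧ ∀ g ∈ H, ρ g y = y) ?_ ?_ ?_ ?_ hy
  · rintro _ ⟨g, rfl⟩
    refine ⟨H.comap (MulAut.conj g⁻¹).toMonoidHom, ?_, ?_⟩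
    · have hc : Continuous fun x : G => g⁻¹ * x * g := by fun_prop
      have := hH.preimage hc
      convert this using 1
      ext x
      simp
    · intro k hk
      have hk' : g⁻¹ * k * g ∈ H := by
        simpa [Subgroup.mem_comap, MulAut.conj_apply] using hk
      have h1 := hHu _ hk'
      have h2 : ρ k (ρ g u) = ρ g (ρ (g⁻¹ * k * g) u) := by
        rw [← Module.End.mul_apply, ← Module.End.mul_apply, ← map_mul, ← map_mul]
        congr 2
        group
      rw [h2, h1]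
  · exact ⟨⊤, isOpen_univ, fun g _ => map_zero _⟩
  · rintro x y _ _ ⟨H1, h1, k1⟩ ⟨H2, h2, k2⟩
    exact ⟨H1 ⊓ H2, h1.inter h2, fun g hg => by rw [map_add, k1 g hg.1, k2 g hg.2]⟩
  · rintro a x _ ⟨H1, h1, k1⟩
    exact ⟨H1, h1, fun g hg => by rw [map_smul, k1 g hg]⟩

theorem gen2 : S_GEN2 := by
  intro G _ V _ _ ρ u hu
  obtain ⟨M, -, hM⟩ := zorn_le_nonempty₀
    {M : Submodule ℂ V | Stable ρ M ∧ M ≤ gen ρ u ∧ u ∉ M} (by
      intro c hc hchain y hy
      have hdir : DirectedOn (· ≤ ·) c := hchain.directedOn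
      refine ⟨sSup c, ⟨?_, ?_, ?_⟩, fun z hz => le_sSup hz⟩
      · intro g v hv
        obtain ⟨M, hM, hvM⟩ := (Submodule.mem_sSup_of_directed ⟨y, hy⟩ hdir).1 hv
        exact (le_sSup hM) ((hc hM).1 g v hvM)
      · exact sSup_le fun M hM => (hc hM).2.1
      · intro hu'
        obtain ⟨M, hM, hvM⟩ := (Submodule.mem_sSup_of_directed ⟨y, hy⟩ hdir).1 hu'
        exact (hc hM).2.2 hvM) ⊥
    ⟨fun g v hv => by
      rw [Submodule.mem_bot] at hv ⊢
      rw [hv, map_zero], bot_le, fun h => hu ((Submodule.mem_bot ℂ).1 h)⟩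
  refine ⟨M, hM.prop.1, hM.prop.2.1, hM.prop.2.2, fun W hW hMW hWg => ?_⟩
  by_cases hu' : u ∈ W
  · exact Or.inr hu'
  · exact Or.inl (le_antisymm (hM.le_of_ge ⟨hW, hWg, hu'⟩ hMW) hMW)

end Pool.Agent.W2helper76.LL
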