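import Pool.Agent.W2helper63.LL.Stm

/-!
# Project LL, piece GEN3
-/

set_option autoImplicit false

noncomputable section

namespace Pool.Agent.W2helper76.LL

open Pool.Agent.W2helper63.LL

/-- the product representation -/
def prodR {G V V' : Type} [Group G] [AddCommGroup V] [Module ℂ V] [AddCommGroup V'] [Module ℂ V']
    (ρ : Representation ℂ G V) (ρ' : Representation ℂ G V') : Representation ℂ G (V × V') where
  toFun g := (ρ g).prodMap (ρ' g)
  map_one' := by ext x <;> simp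
  map_mul' g h := by ext x <;> simp

theorem gen_stable {G V : Type} [Group G] [AddCommGroup V] [Module ℂ V]
    (ρ : Representation ℂ G V) (u : V) (g : G) (y : V) (hy : y ∈ gen ρ u) : ρ g y ∈ gen ρ u := by
  refine Submodule.span_induction (p := fun y _ => ρ g y ∈ gen ρ u) ?_ ?_ ?_ ?_ hy
  · rintro _ ⟨h, rfl⟩
    refine Submodule.subset_span ⟨g * h, ?_⟩
    simp
  · simp
  · intro x y _ _ hx hy
    rw [map_add]
    exact add_mem hx hy
  · intro a x _ hx
    rw [map_smul]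
    exact Submodule.smul_mem _ _ hx

theorem self_mem_gen {G V : Type} [Group G] [AddCommGroup V] [Module ℂ V]
    (ρ : Representation ℂ G V) (u : V) : u ∈ gen ρ u :=
  Submodule.subset_span ⟨1, by simp⟩

theorem gen3 : S_GEN3 := by
  intro hKL L _ _ p hp V V' _ _ _ _ ρ ρ' u u' hu hu' hu0 hu0'
  have hst : StVec (prodR ρ ρ') p (u, u') := by
    refine ⟨fun g hg => ?_, ?_, ?_, fun z => ?_⟩
    · show (ρ g u, ρ' g u') = _
      rw [hu.iw g hg, hu'.iw g hg]
    · show (ρ _ u, ρ' _ u') = _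
      rw [hu.w, hu'.w]; rfl
    · show (u + ρ _ u + ρ _ u, u' + ρ' _ u' + ρ' _ u') = _
      rw [hu.rel, hu'.rel]; rfl
    · show (ρ _ u, ρ' _ u') = _
      rw [hu.cen, hu'.cen]
  obtain ⟨h1, -⟩ := hKL L p hp (V × V') (prodR ρ ρ') (u, u') hst
  have hinj : ∀ X ∈ gen (prodR ρ ρ') (u, u'), X.1 = 0 → X = 0 := by
    intro X hX hX1
    by_contra hne
    have := h1 (LinearMap.ker (LinearMap.fst ℂ V V')) (fun g v hv => by
      rw [LinearMap.mem_ker] at hv ⊢
      show ρ g v.1 = 0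
      have hv' : v.1 = 0 := hv
      rw [hv', map_zero]) X hX1 hX hne
    exact hu0 this
  have hmem : ∀ X ∈ gen (prodR ρ ρ') (u, u'), X.1 ∈ gen ρ u := by
    intro X hX
    refine Submodule.span_induction (p := fun X _ => X.1 ∈ gen ρ u) ?_ ?_ ?_ ?_ hX
    · rintro _ ⟨g, rfl⟩
      exact Submodule.subset_span ⟨g, rfl⟩
    · simp
    · intro x y _ _ hx hy
      exact add_mem hx hy
    · intro a x _ hx
      exact Submodule.smul_mem _ _ hx
  have hsurj : ∀ x ∈ gen ρ u, ∃ X ∈ gen (prodR ρ ρ') (u, u'), X.1 = x := by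
    intro x hx
    refine Submodule.span_induction
      (p := fun x _ => ∃ X ∈ gen (prodR ρ ρ') (u, u'), X.1 = x) ?_ ?_ ?_ ?_ hx
    · rintro _ ⟨g, rfl⟩
      exact ⟨prodR ρ ρ' g (u, u'), Submodule.subset_span ⟨g, rfl⟩, rfl⟩
    · exact ⟨0, Submodule.zero_mem _, rfl⟩
    · rintro x y _ _ ⟨X, hX, rfl⟩ ⟨Y, hY, rfl⟩
      exact ⟨X + Y, add_mem hX hY, rfl⟩
    · rintro a x _ ⟨X, hX, rfl⟩
      exact ⟨a • X, Submodule.smul_mem _ _ hX, rfl⟩
  let F : gen (prodR ρ ρ') (u, u') →ₗ[ℂ] gen ρ u :=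
    LinearMap.codRestrict (gen ρ u) ((LinearMap.fst ℂ V V').comp (Submodule.subtype _))
      (fun X => hmem X.1 X.2)
  have hF : Function.Bijective F := by
    constructor
    · rw [← LinearMap.ker_eq_bot, LinearMap.ker_eq_bot']
      intro X hX
      have : (X : V × V').1 = 0 := congrArg Subtype.val hX
      exact Subtype.ext (hinj X.1 X.2 this)
    · rintro ⟨x, hx⟩
      obtain ⟨X, hX, hXx⟩ := hsurj x hx
      exact ⟨⟨X, hX⟩, Subtype.ext hXx⟩
  let e := LinearEquiv.ofBijective F hF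
  have he : ∀ (x : gen ρ u) (X : V × V') (hX : X ∈ gen (prodR ρ ρ') (u, u')), X.1 = x →
      e.symm x = ⟨X, hX⟩ := by
    intro x X hX hx
    rw [LinearEquiv.symm_apply_eq]
    exact Subtype.ext hx.symm
  refine ⟨(LinearMap.snd ℂ V V').comp ((Submodule.subtype _).comp e.symm.toLinearMap), ?_, ?_⟩
  · intro h0
    have h2 := LinearMap.congr_fun h0 ⟨u, self_mem_gen ρ u⟩
    have h3 : ((e.symm ⟨u, self_mem_gen ρ u⟩ : gen (prodR ρ ρ') (u, u')) : V × V').2 = 0 := h2
    rw [he ⟨u, self_mem_gen ρ u⟩ (u, u') (self_mem_gen _ _) rfl] at h3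
    exact hu0' h3
  · intro g x y hy
    obtain ⟨X, hX, hXx⟩ := hsurj x x.2
    show ((e.symm y : gen (prodR ρ ρ') (u, u')) : V × V').2 =
      ρ' g ((e.symm x : gen (prodR ρ ρ') (u, u')) : V × V').2
    rw [he x X hX hXx, he y (prodR ρ ρ' g X) (gen_stable _ _ _ _ hX)
      (by rw [hy, ← hXx]; rfl)]
    rfl

end Pool.Agent.W2helper76.LL
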