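import Pool.Agent.W2helper76.LL.Gen3

/-!
# Project LL, piece KLC: the key lemma from KLA and KLB
-/

set_option autoImplicit false

noncomputable section

namespace Pool.Agent.W2helper76.LL

open Pool.Agent.W2helper63.LL WithZero
open scoped Classical

section alg

variable {L : Type} [Field L]

/-- diagonal matrices `(a 0; 0 1)` -/
def hd : Lˣ →* GL (Fin 2) L where
  toFun a := bor a 0 1
  map_one' := by
    ext i j
    fin_cases i <;> fin_cases j <;> simp [bor]
  map_mul' a b := by
    ext i j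
    fin_cases i <;> fin_cases j <;> simp [bor, Matrix.mul_apply, Fin.sum_univ_two]

theorem tt_zpow (p : Lˣ) (k : ℤ) : tt p ^ k = hd (p ^ k) := by
  rw [map_zpow]; rfl

theorem nu_mul (x y : L) : nu x * nu y = nu (x + y) := by
  ext i j
  fin_cases i <;> fin_cases j <;>
    simp [nu, bor, Matrix.mul_apply, Fin.sum_univ_two, add_comm]

theorem hd_nu (q : Lˣ) (x : L) : hd q * nu x = nu ((q : L) * x) * hd q := by
  ext i j
  fin_cases i <;> fin_cases j <;>
    simp [hd, nu, bor, Matrix.mul_apply, Fin.sum_univ_two]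

theorem conj (p : Lˣ) (a b : L) (m n : ℤ) :
    tt p ^ (-m) * nu (-b) * (nu a * tt p ^ n) = nu ((p : L) ^ (-m) * (a - b)) * tt p ^ (n - m) := by
  have h1 : tt p ^ (-m) * nu (-b) * (nu a * tt p ^ n)
      = (tt p ^ (-m) * nu (-b + a)) * tt p ^ n := by
    rw [← nu_mul]; simp only [mul_assoc]
  rw [h1, tt_zpow p (-m), hd_nu, ← tt_zpow, mul_assoc, ← zpow_add, Units.val_zpow_eq_zpow_val]
  congr 2
  · ring
  · ring

theorem U_move {V : Type} [AddCommGroup V] [Module ℂ V] (ρ : Representation ℂ (GL (Fin 2) L) V)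
    (p : Lˣ) (u : V) (a b : L) (m n : ℤ) :
    ρ (tt p ^ (-m) * nu (-b)) (U ρ p u a n) = U ρ p u ((p : L) ^ (-m) * (a - b)) (n - m) := by
  unfold U
  rw [← conj, map_mul ρ (tt p ^ (-m) * nu (-b)) (nu a * tt p ^ n)]
  rfl

theorem sum_move {V : Type} [AddCommGroup V] [Module ℂ V] (ρ : Representation ℂ (GL (Fin 2) L) V)
    (p : Lˣ) (u : V) (b : L) (m n k : ℤ) (hk : k = n - m) (c : L →₀ ℂ) :
    ((c.mapDomain fun a => (p : L) ^ (-m) * (a - b)).sum fun a z => z • U ρ p u a k) =
      ρ (tt p ^ (-m) * nu (-b)) (c.sum fun a z => z • U ρ p u a n) := by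
  rw [Finsupp.sum_mapDomain_index (h := fun a z => z • U ρ p u a k)
    (fun a => zero_smul ℂ _) (fun a x y => add_smul x y _)]
  unfold Finsupp.sum
  rw [map_sum]
  refine Finset.sum_congr rfl fun a _ => ?_
  beta_reduce
  rw [map_smul, U_move, hk]

end alg

section val

variable {L : Type} [Field L] [Valued L (WithZero (Multiplicative ℤ))]

theorem v_zpow {p : Lˣ} (hp : Valued.v (p : L) = exp (-1 : ℤ)) (m : ℤ) :
    Valued.v ((p : L) ^ (-m)) = exp m := by
  rw [map_zpow₀, hp, ← exp_zsmul]
  congr 1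
  simp

/-- the pointwise identity -/
theorem pointwise {p : Lˣ} (hp : Valued.v (p : L) = exp (-1 : ℤ)) (d : L) (m : ℤ) :
    lam ((p : L) ^ (-m) * d) - lam ((p : L) ^ (-(m - 1)) * d) / 4 =
      (3 / 8 : ℂ) * (2 * (if Valued.v d ≤ exp (-m) then 1 else 0) -
        (if Valued.v d ≤ exp (-(m - 1)) then 1 else 0)) := by
  by_cases hd : d = 0
  · subst hd
    simp [lam]
    norm_num
  · have hv : Valued.v d ≠ 0 := (Valuation.ne_zero_iff _).2 hd
    obtain ⟨k, hk⟩ : ∃ k : ℤ, Valued.v d = exp k := ⟨log (Valued.v d), (exp_log hv).symm⟩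
    have e1 : Valued.v ((p : L) ^ (-m) * d) = exp (m + k) := by
      rw [map_mul, v_zpow hp, hk, exp_add]
    have e2 : Valued.v ((p : L) ^ (-(m - 1)) * d) = exp (m - 1 + k) := by
      rw [map_mul, v_zpow hp, hk, exp_add]
    unfold lam
    rw [e1, e2, hk, ← exp_zero]
    simp only [exp_le_exp, log_exp]
    by_cases h1 : m + k ≤ 0
    · have h2 : m - 1 + k ≤ 0 := by omega
      have h3 : k ≤ -m := by omega
      have h4 : k ≤ -(m - 1) := by omega
      simp only [h1, h2, h3, h4, if_true]
      norm_num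
    · by_cases h5 : m + k = 1
      · have h2 : m - 1 + k ≤ 0 := by omega
        have h3 : ¬ k ≤ -m := by omega
        have h4 : k ≤ -(m - 1) := by omega
        simp only [h1, h2, h3, h4, if_true, if_false]
        rw [h5]
        norm_num
      · have h2 : ¬ m - 1 + k ≤ 0 := by omega
        have h3 : ¬ k ≤ -m := by omega
        have h4 : ¬ k ≤ -(m - 1) := by omega
        simp only [h1, h2, h3, h4, if_false]
        have : (4 : ℂ) ^ (-(m - 1 + k)) = 4 ^ (-(m + k)) * 4 := by
          rw [← zpow_add_one₀ (by norm_num : (4 : ℂ) ≠ 0)]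
          congr 1; ring
        rw [this]
        ring

/-- mass of a ball -/
def mass (c : L →₀ ℂ) (b : L) (m : ℤ) : ℂ :=
  c.sum fun a z => if Valued.v (a - b) ≤ exp (-m) then z else 0

theorem mass_step {p : Lˣ} (hp : Valued.v (p : L) = exp (-1 : ℤ)) (c : L →₀ ℂ) (b : L) (m : ℤ)
    (h0 : (c.sum fun a z => z * lam ((p : L) ^ (-m) * (a - b))) = 0)
    (h1 : (c.sum fun a z => z * lam ((p : L) ^ (-(m - 1)) * (a - b))) = 0) :
    mass c b (m - 1) = 2 * mass c b m := by
  have h2 : (c.sum fun a z => z * lam ((p : L) ^ (-m) * (a - b))) -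
      (c.sum fun a z => z * lam ((p : L) ^ (-(m - 1)) * (a - b))) / 4 =
      (3 / 8 : ℂ) * (2 * mass c b m - mass c b (m - 1)) := by
    unfold mass Finsupp.sum
    rw [Finset.sum_div, ← Finset.sum_sub_distrib, Finset.mul_sum, ← Finset.sum_sub_distrib,
      Finset.mul_sum]
    refine Finset.sum_congr rfl fun a _ => ?_
    beta_reduce
    have := pointwise hp (a - b) m
    have e : c a * lam ((p : L) ^ (-m) * (a - b)) - c a * lam ((p : L) ^ (-(m - 1)) * (a - b)) / 4 =
        c a * (lam ((p : L) ^ (-m) * (a - b)) - lam ((p : L) ^ (-(m - 1)) * (a - b)) / 4) := by ring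
    rw [e, this]
    split_ifs <;> ring
  rw [h0, h1] at h2
  have h3 : (3 / 8 : ℂ) * (2 * mass c b m - mass c b (m - 1)) = 0 := by rw [← h2]; simp
  have h4 := (mul_eq_zero.1 h3).resolve_left (by norm_num)
  linear_combination -h4

theorem mass_big (c : L →₀ ℂ) (b : L) : ∃ m0 : ℤ, ∀ m ≤ m0, mass c b m = c.sum fun _ z => z := by
  have : ∃ m0 : ℤ, ∀ a ∈ c.support, Valued.v (a - b) ≤ exp (-m0) := by
    induction c.support using Finset.induction_on with
    | empty => exact ⟨0, by simp⟩
    | insert a s _ ih =>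
      obtain ⟨m1, h1⟩ := ih
      by_cases h : a - b = 0
      · refine ⟨m1, fun x hx => ?_⟩
        rcases Finset.mem_insert.1 hx with rfl | hx
        · rw [h]; simp
        · exact h1 x hx
      · have hv : Valued.v (a - b) ≠ 0 := (Valuation.ne_zero_iff _).2 h
        refine ⟨min m1 (-(log (Valued.v (a - b)))), fun x hx => ?_⟩
        rcases Finset.mem_insert.1 hx with rfl | hx
        · rw [← exp_log hv, exp_le_exp, log_exp]
          have := min_le_right m1 (-(log (Valued.v (x - b))))
          omega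
        · refine (h1 x hx).trans ?_
          rw [exp_le_exp]
          have := min_le_left m1 (-(log (Valued.v (a - b))))
          omega
  obtain ⟨m0, h⟩ := this
  refine ⟨m0, fun m hm => ?_⟩
  unfold mass Finsupp.sum
  refine Finset.sum_congr rfl fun a ha => ?_
  beta_reduce
  rw [if_pos]
  refine (h a ha).trans ?_
  rw [exp_le_exp]
  omega

theorem mass_zero (c : L →₀ ℂ) (b : L) (n : ℤ)
    (h : ∀ m ≤ n, mass c b (m - 1) = 2 * mass c b m) : mass c b n = 0 := by
  obtain ⟨m0, h0⟩ := mass_big c b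
  have hT : (c.sum fun _ z => z) = 0 := by
    have h1 := h (min m0 n) (min_le_right _ _)
    rw [h0 (min m0 n - 1) (by have := min_le_left m0 n; omega),
      h0 (min m0 n) (min_le_left _ _)] at h1
    linear_combination -h1
  have hk : ∀ k : ℕ, min m0 n + k ≤ n → mass c b (min m0 n + k) = 0 := by
    intro k
    induction k with
    | zero =>
      intro _
      rw [Nat.cast_zero, add_zero, h0 _ (min_le_left _ _), hT]
    | succ k ih =>
      intro hk
      have h1 := ih (by push_cast at hk; omega)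
      have h2 := h (min m0 n + ((k + 1 : ℕ) : ℤ)) hk
      have e : min m0 n + ((k + 1 : ℕ) : ℤ) - 1 = min m0 n + (k : ℤ) := by push_cast; ring
      rw [e, h1] at h2
      have h3 := (mul_eq_zero.1 h2.symm).resolve_left (by norm_num)
      exact h3
  have h5 := hk (n - min m0 n).toNat
    (by have := min_le_right m0 n; rw [Int.toNat_of_nonneg (by omega)]; omega)
  have e : min m0 n + ((n - min m0 n).toNat : ℤ) = n := by
    have := min_le_right m0 n
    rw [Int.toNat_of_nonneg (by omega)]; omega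
  rwa [e] at h5

/-- grouping by classes -/
theorem sum_zero {V : Type} [AddCommGroup V] [Module ℂ V] (c : L →₀ ℂ) (n : ℤ) (F : L → V)
    (hF : ∀ a b : L, Valued.v (a - b) ≤ exp (-n) → F a = F b) (h : ∀ b, mass c b n = 0) :
    (c.sum fun a z => z • F a) = 0 := by
  let s : Setoid L :=
    { r := fun a b => Valued.v (a - b) ≤ exp (-n)
      iseqv := by
        refine ⟨fun a => ?_, fun {a b} hab => ?_, fun {a b d} hab hbd => ?_⟩
        · simp
        · show Valued.v (b - a) ≤ exp (-n)
          rw [Valuation.map_sub_swap]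
          exact hab
        · have : a - d = (a - b) + (b - d) := by ring
          show Valued.v (a - d) ≤ exp (-n)
          rw [this]
          exact (Valuation.map_add _ _ _).trans (max_le hab hbd) }
  unfold Finsupp.sum
  rw [← Finset.sum_fiberwise_of_maps_to (g := fun a => (Quotient.mk s a))
    (t := c.support.image fun a => (Quotient.mk s a))
    (fun a ha => Finset.mem_image_of_mem _ ha)]
  refine Finset.sum_eq_zero fun q hq => ?_
  obtain ⟨b, hb, rfl⟩ := Finset.mem_image.1 hq
  have h1 : ∀ a ∈ c.support.filter (fun a => Quotient.mk s a = Quotient.mk s b),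
      c a • F a = c a • F b := by
    intro a ha
    rw [hF a b (Quotient.exact (Finset.mem_filter.1 ha).2)]
  rw [Finset.sum_congr rfl h1, ← Finset.sum_smul]
  have h2 : ∑ a ∈ c.support.filter (fun a => Quotient.mk s a = Quotient.mk s b), c a =
      mass c b n := by
    unfold mass Finsupp.sum
    rw [Finset.sum_filter]
    refine Finset.sum_congr rfl fun a _ => ?_
    beta_reduce
    by_cases hab : Valued.v (a - b) ≤ exp (-n)
    · rw [if_pos hab, if_pos (Quotient.sound hab)]
    · rw [if_neg hab, if_neg fun e => hab (Quotient.exact e)]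
  rw [h2, h b, zero_smul]

end val

theorem multiset_sum_mem {M V : Type} [AddCommGroup V] [Module ℂ V] (W : Submodule ℂ V)
    (H : Multiset M) (f : M → V) (h : ∀ x, f x ∈ W) : (H.map f).sum ∈ W := by
  refine _root_.multiset_sum_mem _ fun y hy => ?_
  obtain ⟨x, -, rfl⟩ := Multiset.mem_map.1 hy
  exact h x

theorem integral_sw {L : Type} [Field L] [Valued L (WithZero (Multiplicative ℤ))] :
    Integral (sw : GL (Fin 2) L) := by
  intro i j
  have : (sw⁻¹ : GL (Fin 2) L).1 = !![0, 1; 1, 0] := rfl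
  rw [this]
  fin_cases i <;> fin_cases j <;> simp [sw]

theorem integral_nusw {L : Type} [Field L] [Valued L (WithZero (Multiplicative ℤ))] :
    Integral (nu 1 * sw : GL (Fin 2) L) := by
  intro i j
  have h1 : ((nu 1 * sw)⁻¹ : GL (Fin 2) L).1 = !![0, 1; 1, -1] := by
    rw [mul_inv_rev]
    have a1 : ((sw⁻¹ * (nu 1)⁻¹ : GL (Fin 2) L)).1 =
      (!![0, 1; 1, 0] : Matrix (Fin 2) (Fin 2) L) * !![((1⁻¹ : Lˣ) : L),
        -((1⁻¹ : Lˣ) : L) * 1 * ((1⁻¹ : Lˣ) : L); 0, ((1⁻¹ : Lˣ) : L)] := rfl
    rw [a1]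
    ext i j
    fin_cases i <;> fin_cases j <;> simp [Matrix.mul_apply, Fin.sum_univ_two]
  have h2 : (nu 1 * sw : GL (Fin 2) L).1 = !![1, 1; 1, 0] := by
    have a1 : (nu 1 * sw : GL (Fin 2) L).1 =
      (!![((1 : Lˣ) : L), 1; 0, ((1 : Lˣ) : L)] : Matrix (Fin 2) (Fin 2) L) * !![0, 1; 1, 0] := rfl
    rw [a1]
    ext i j
    fin_cases i <;> fin_cases j <;> simp [Matrix.mul_apply, Fin.sum_univ_two]
  rw [h1, h2]
  fin_cases i <;> fin_cases j <;> simp [Valuation.map_neg]

theorem klc : S_KLC := by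
  intro hA hB L _ _ p hp V _ _ ρ u hu
  obtain ⟨A1, A2, A3⟩ := hA L p hp V ρ u hu
  have B := hB L p hp V ρ u hu A1 A2
  refine ⟨fun W hW y hyW hyg hy0 => ?_, fun y hyg hfix => ?_⟩
  · by_contra huW
    obtain ⟨N, hN⟩ := A3 y hyg
    obtain ⟨c, hc⟩ := hN N le_rfl
    apply hy0
    -- all the sums vanish
    have key : ∀ (b : L) (m : ℤ), m ≤ N →
        (c.sum fun a z => z * lam ((p : L) ^ (-m) * (a - b))) = 0 := by
      intro b m hm
      obtain ⟨H, K, hH0, hK0, hHI, hsum⟩ := B ((N : ℤ) - m).toNat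
        (c.mapDomain fun a => (p : L) ^ (-m) * (a - b))
      have e1 : ((c.mapDomain fun a => (p : L) ^ (-m) * (a - b)).sum fun a z =>
          z • U ρ p u a (((N : ℤ) - m).toNat : ℕ)) = ρ (tt p ^ (-m) * nu (-b)) y := by
        have h1 := sum_move ρ p u b m (N : ℤ) (((N : ℤ) - m).toNat : ℕ)
          (Int.toNat_of_nonneg (by omega)) c
        rw [← hc] at h1
        exact h1
      have e2 : ((c.mapDomain fun a => (p : L) ^ (-m) * (a - b)).sum fun a z => z * lam a) =
          c.sum fun a z => z * lam ((p : L) ^ (-m) * (a - b)) := by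
        rw [Finsupp.sum_mapDomain_index (by simp) (by intros; rw [add_mul])]
      rw [e1, e2] at hsum
      by_contra hne
      apply huW
      have hmem : ((K : ℂ) * c.sum fun a z => z * lam ((p : L) ^ (-m) * (a - b))) • u ∈ W := by
        rw [← hsum]
        exact multiset_sum_mem W H _ fun h => hW _ _ (hW _ _ hyW)
      have hne2 : ((K : ℂ) * c.sum fun a z => z * lam ((p : L) ^ (-m) * (a - b))) ≠ 0 :=
        mul_ne_zero (by exact_mod_cast hK0) hne
      exact (Submodule.smul_mem_iff W hne2).1 hmem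
    rw [hc]
    refine sum_zero c N (fun a => U ρ p u a N) (fun a b hab => A1 a b N hab) fun b => ?_
    exact mass_zero c b N fun m hm => mass_step hp.val c b m (key b m hm)
      (key b (m - 1) (by omega))
  · obtain ⟨N, hN⟩ := A3 y hyg
    obtain ⟨c, hc⟩ := hN N le_rfl
    obtain ⟨H, K, hH0, hK0, hHI, hsum⟩ := B N c
    rw [← hc] at hsum
    have h1 : (H.map fun h => ρ h y).sum = (Multiset.card H : ℂ) • y := by
      have : (H.map fun h => ρ h y) = H.map fun _ => y :=
        Multiset.map_congr rfl fun h hh => hfix h (hHI h hh).1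
      rw [this, Multiset.map_const', Multiset.sum_replicate]
      norm_cast
    rw [h1] at hsum
    have hcard : (Multiset.card H : ℂ) ≠ 0 := by
      rw [Ne, Nat.cast_eq_zero, Multiset.card_eq_zero]
      exact hH0
    obtain ⟨α, hα⟩ : ∃ α : ℂ, y = α • u := by
      refine ⟨(Multiset.card H : ℂ)⁻¹ * ((K : ℂ) * c.sum fun a z => z * lam a), ?_⟩
      rw [mul_smul, ← hsum, smul_smul, inv_mul_cancel₀ hcard, one_smul]
    by_cases hα0 : α = 0
    · rw [hα, hα0, zero_smul]
    · have hu' : u = α⁻¹ • y := by rw [hα, smul_smul, inv_mul_cancel₀ hα0, one_smul]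
      have hfu : ∀ g : GL (Fin 2) L, Integral g → ρ g u = u := by
        intro g hg
        rw [hu', map_smul, hfix g hg]
      have h3 := hu.rel
      rw [hfu _ integral_sw, hfu _ integral_nusw] at h3
      have h4 : (3 : ℂ) • u = 0 := by
        have : (3 : ℂ) • u = u + u + u := by
          have : (3 : ℂ) = 1 + 1 + 1 := by norm_num
          rw [this, add_smul, add_smul, one_smul]
        rw [this, h3]
      have h5 : u = 0 := (smul_eq_zero.1 h4).resolve_left (by norm_num)
      rw [hα, h5, smul_zero]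

end Pool.Agent.W2helper76.LL
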